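import Pool.Agent.H413.RV.Cls
import Pool.Agent.H413.BR.Sch5

/-!
MP_6a3dac_ag: proper flat models over the ring of integers, with the given generic fibre, which are
regular at the specializations of ALL points of bounded absolute ramification, with values in
arbitrary discretely valued fields, in all dimensions; and at the same time at the centres of any
finite number of independent valuations with defect.

Let `E` be a number field and `X` an integral projective scheme over `E` with regular local rings
(for example a smooth projective variety), of any dimension, and let `d` be an integer. Then `X` has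
an integral proper flat model `Y` over `𝓞 E` such that

* for every field `L` with a discrete valuation ring `V` of mixed characteristic and absolute
  ramification index at most `d`, and every point `Spec L → X`, the unique extension
  `Spec V → Y` maps the closed point to a regular point of `Y`. Here `L` is arbitrary: for
  example a `p`-adic field, the completion of a function field, or the residue field of any point of
  `X` (closed or not) with any discrete valuation. So `Y` is regular at the centres of all discrete
  valuation rings of mixed characteristic with absolute ramification index at most `d` of all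
  residue fields of `X`, in particular of the function field of `X`;
* in particular (as the absolute ramification of a number field is bounded by its degree) `Y` is
  regular at all points of the closures of the points of `X` of degree at most `d` over `ℚ`;
* `Y` is regular at the centres of any given finite family of pairwise independent valuation rings
  of residue fields of different points of `X` in the class `Admissible (𝓞 E)` (which contains
  valuations of any rank with defect).

The main part of the proof (`Pool.Agent.H413.BR`) is an induction in which generic points of closed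
subsets of the model are blown up: the discriminant of the model at a trait of ramification index at
most `d` is bounded, in terms of a valuation ring of rank at least two of the function field
which is attached to the trait, and it decreases by each blowing up of a closed subset, at the
generic point of which the model is not regular, and along which it is equisingular in a weak sense.
The charts of the blowing up of the closed subset are compared with the blowing up of an ambient
regular ring. The regularity of the generizations of regular points (Serre's theorem) is proved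
on the way.
-/

set_option autoImplicit false

open AlgebraicGeometry CategoryTheory CategoryTheory.Limits NumberField

namespace Pool.Agent.Results.MP_6a3dac_ag.BoundedRamification

open Pool.Agent.H413.RV (Admissible)
open Pool.Agent.H413.SC5 (main5)

/-- `X` with the morphism `f` to `Spec E` is projective over `E`: it is `Proj` of a graded
`E`-algebra with degree zero part `E`, generated by finitely many elements of degree one. -/
def IsProjectiveOver {E : Type} [Field E] {X : Scheme.{0}} (f : X ⟶ Spec (CommRingCat.of E)) :
    Prop :=
  ∃ (A : Type) (_ : CommRing A) (_ : Algebra E A) (𝒜 : ℕ → Submodule E A) (_ : GradedAlgebra 𝒜),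
    (∀ a ∈ 𝒜 0, ∃ q : E, algebraMap E A q = a) ∧
    (∃ s : Finset A, (∀ a ∈ s, a ∈ 𝒜 1) ∧ Algebra.adjoin E (s : Set A) = ⊤) ∧
    ∃ i : X ≅ Proj 𝒜,
      i.hom ≫ Proj.toSpecZero 𝒜 ≫ Spec.map (CommRingCat.ofHom (algebraMap E (𝒜 0))) = f

/-- The discrete valuation ring `V` has mixed characteristic (some prime number is a nonunit) and
absolute ramification index at most `d` (no prime number is in the power `d + 1` of the maximal
ideal). -/
def HasRamificationAtMost {L : Type} [Field L] (V : ValuationSubring L) (d : ℕ) : Prop :=
  (∃ p : ℕ, p.Prime ∧ V.valuation (p : L) < 1) ∧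
    ∀ p : ℕ, p.Prime → ((p : ℕ) : V) ∉ IsLocalRing.maximalIdeal V ^ (d + 1)

/-- The valuation ring `W` of `κ` lies over the prime number `p`, and `W[1 / p] = κ`. -/
def LiesOver {κ : Type} [Field κ] (W : ValuationSubring κ) (p : ℕ) : Prop :=
  p.Prime ∧ W.valuation (p : κ) < 1 ∧ ∀ z : κ, ∃ n : ℕ, (p : κ) ^ n * z ∈ W

/-- The valuation rings `W` and `W'` of `κ` are independent: `κ` is the only valuation ring which
contains both of them. -/
def AreIndependent {κ : Type} [Field κ] (W W' : ValuationSubring κ) : Prop :=
  ∀ U : ValuationSubring κ, W ≤ U → W' ≤ U → U = ⊤

/-- The homomorphism from the ring of integers to the residue field of the point `x` of the scheme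
`X` over `E`. -/
noncomputable def toResidueField {E : Type} [Field E] [NumberField E] {X : Scheme.{0}}
    (f : X ⟶ Spec (CommRingCat.of E)) (x : X) : 𝓞 E →+* X.residueField x :=
  (Spec.preimage (X.fromSpecResidueField x ≫ f)).hom.comp (algebraMap (𝓞 E) E)

/-- The point `ψ` of the generic fibre `X` with values in `L` extends to a morphism from the spectrum
of the valuation ring `V` of `L` to the model `Y` (with the morphism `m` from the generic fibre `X`),
and `Y` is regular at the image of the closed point. -/
def ExtendsRegularly {X Y : Scheme.{0}} (m : X ⟶ Y) {L : Type} [Field L]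
    (ψ : Spec (CommRingCat.of L) ⟶ X) (V : ValuationSubring L) : Prop :=
  ∃ ζ : Spec (CommRingCat.of V) ⟶ Y,
    Spec.map (CommRingCat.ofHom V.subtype) ≫ ζ = ψ ≫ m ∧
    IsRegularLocalRing (Y.presheaf.stalk (ζ (IsLocalRing.closedPoint V : PrimeSpectrum V)))

/-- The model `Y` of `X`, with the morphism `m` from the generic fibre `X`, is regular at all points
of the closures of the points of `X` with values in number fields of degree at most `d`. -/
def IsRegularAlongPointsOfDegree {X Y : Scheme.{0}} (m : X ⟶ Y) (d : ℕ) : Prop :=
  ∀ (L : Type) [Field L] [NumberField L], Module.finrank ℚ L ≤ d →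
    ∀ (ψ : Spec (CommRingCat.of L) ⟶ X) (z : Y),
      (ψ ≫ m) (IsLocalRing.closedPoint L : PrimeSpectrum L) ⤳ z →
      IsRegularLocalRing (Y.presheaf.stalk z)

/-- Let `E` be a number field, `X` an integral projective scheme over `E` with regular local
rings and `d` an integer. Let `x i` be finitely many different points of `X`, and for each `i` let
`W i j` be finitely many pairwise independent valuation rings of the residue field of `x i` in the
class `Admissible (𝓞 E)` such that `W i j` lies over the prime number `p i j` and `(W i j)[1 / p i j]`
is the residue field (there may be none). Then `X` has an integral proper flat model `Y` over `𝓞 E`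
which is regular at the specializations of all points of `X` with values in fields `L`, with respect
to all discrete valuation rings of `L` of mixed characteristic and absolute ramification index at
most `d`, along the closures of all the points of `X` with values in number fields of degree at most
`d`, and at the centres of all `W i j`. -/
theorem result (E : Type) [Field E] [NumberField E] (X : Scheme.{0}) [IsIntegral X]
    (f : X ⟶ Spec (CommRingCat.of E)) (hX : IsProjectiveOver f)
    (hreg : ∀ z : X, IsRegularLocalRing (X.presheaf.stalk z)) (d : ℕ)
    (ι : Type) [Finite ι] (x : ι → X) (hx : Function.Injective x)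
    (J : ι → Type) [∀ i, Finite (J i)] (W : ∀ i, J i → ValuationSubring (X.residueField (x i)))
    (p : ∀ i, J i → ℕ) (hW : ∀ i j, LiesOver (W i j) (p i j))
    (hind : ∀ i j j', j ≠ j' → AreIndependent (W i j) (W i j'))
    (hC : ∀ i j, Admissible (𝓞 E) (toResidueField f (x i)) (W i j)) :
    ∃ (Y : Scheme.{0}) (g : Y ⟶ Spec (CommRingCat.of (𝓞 E)))
      (e : pullback g (Spec.map (CommRingCat.ofHom (algebraMap (𝓞 E) E))) ≅ X),
      IsIntegral Y ∧ IsProper g ∧ Flat g ∧
      e.hom ≫ f = pullback.snd g (Spec.map (CommRingCat.ofHom (algebraMap (𝓞 E) E))) ∧
      (∀ (L : Type) [Field L] (V : ValuationSubring L) [IsDiscreteValuationRing V],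
        HasRamificationAtMost V d → ∀ ψ : Spec (CommRingCat.of L) ⟶ X,
          ExtendsRegularly (e.inv ≫ pullback.fst _ _) ψ V) ∧
      IsRegularAlongPointsOfDegree (e.inv ≫ pullback.fst _ _) d ∧
      ∀ i j, ExtendsRegularly (e.inv ≫ pullback.fst _ _) (X.fromSpecResidueField (x i)) (W i j) := by
  classical
  obtain ⟨A, _, _, 𝒜, _, h0, ⟨s, hs, hgen⟩, i, hif⟩ := hX
  let σ : ∀ t, E →+* X.residueField (x t) := fun t =>
    (Spec.preimage (X.fromSpecResidueField (x t) ≫ f)).hom
  have hσ : ∀ t, X.fromSpecResidueField (x t) ≫ f = Spec.map (CommRingCat.ofHom (σ t)) :=
    fun t => (Spec.map_preimage (X.fromSpecResidueField (x t) ≫ f)).symm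
  have hHJ : Pool.Agent.TH188.QS.HJ (𝓞 E) := Pool.Agent.TH188.QS.hj_dedekind
  have hσp : ∀ t (n : ℕ), σ t (algebraMap (𝓞 E) E (n : 𝓞 E)) = (n : X.residueField (x t)) := by
    intro t n
    rw [map_natCast, map_natCast]
  have hp0 : ∀ t j, ((p t j : ℕ) : 𝓞 E) ≠ 0 := fun t j => by
    exact_mod_cast (hW t j).1.ne_zero
  obtain ⟨F, _, _, iO, hsc, M, g, hg, hg0, e, hM, he, hall, hram, hdeg⟩ := main5 (O := 𝓞 E)
    (K := E) (fun o => RingOfIntegers.isIntegral o) f 𝒜 h0 s hs hgen i hif
    x hx hreg d J W σ hσ (fun t j => (p t j : 𝓞 E)) hp0
    (fun t j o => by
      have h1 : IsIntegral ℤ (σ t (algebraMap (𝓞 E) E o)) := by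
        have h2 : IsIntegral ℤ (algebraMap (𝓞 E) E o) := (RingOfIntegers.isIntegral o).algebraMap
        exact h2.map (σ t).toIntAlgHom
      have h2 : IsIntegral (W t j) (σ t (algebraMap (𝓞 E) E o)) := h1.tower_top
      obtain ⟨v, hv⟩ := IsIntegrallyClosed.isIntegral_iff.1 h2
      rw [← hv]
      exact v.2)
    (fun t j z => by
      obtain ⟨n, hn⟩ := (hW t j).2.2 z
      exact ⟨n, by rw [hσp]; exact hn⟩)
    (fun t j h => by
      rw [hσp, ← ValuationSubring.valuation_le_one_iff, map_inv₀] at h
      have h1 := (hW t j).2.1
      have h2 : (W t j).valuation (p t j : X.residueField (x t)) ≠ 0 := by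
        rw [Valuation.ne_zero_iff, ← hσp]
        refine (map_ne_zero _).2 ?_
        rw [map_natCast]
        exact Nat.cast_ne_zero.2 (hW t j).1.ne_zero
      exact absurd h (not_le.2 ((one_lt_inv₀ (zero_lt_iff.2 h2)).2 h1)))
    hind
    (fun t j => (hC t j).allGP hHJ)
  have hinj : Function.Injective (algebraMap (𝓞 E) F) := by
    rw [IsScalarTower.algebraMap_eq (𝓞 E) E F]
    exact (algebraMap E F).injective.comp (IsFractionRing.injective (𝓞 E) E)
  refine ⟨_, Pool.Agent.H968R2.Quad.modelMap M, e,
    Pool.Agent.H968R2.Quad.model_integral M g hg hg0,
    Pool.Agent.H968R2.Quad.modelMap_isProper M hinj hM,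
    Pool.Agent.TH188.ARC.modelMap_flat hinj M g hg hg0, he, ?_, hdeg, hall⟩
  rintro L _ V _ ⟨⟨q, hq, hqV⟩, hd⟩ ψ
  exact hram L V q hq.ne_zero hqV hd ψ

end Pool.Agent.Results.MP_6a3dac_ag.BoundedRamification
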